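import Mathlib
import Pool.Agent.H3.JSgn

set_option autoImplicit false

namespace Pool.Agent.Results.MP_c862d8_co.Exceptional

open Pool.Agent.H3.SgnSum

theorem result :
    ∀ n m h : ℕ, 2 ≤ m → m ≤ n → 2 ≤ h → c h m ≤ n →
      n < (if h % 2 = 0 then 1 else 0) +
        ∑ j ∈ (Finset.Icc 1 h).filter (fun j => j % 2 = h % 2), c j m →
      nu n m h < min n (c h m) :=
  Pool.Agent.H3.JSgn.joined.1

end Pool.Agent.Results.MP_c862d8_co.Exceptional
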