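import Mathlib
import Pool.Agent.H3.JSgn

set_option autoImplicit false

namespace Pool.Agent.Results.MP_c862d8_co.SmallN

open Pool.Agent.H3.SgnSum

theorem result :
    ∀ n m h : ℕ, 2 ≤ m → m ≤ n → 2 ≤ h →
      (n ≤ 2 * h + 1 ∨ (Odd h ∧ Odd n ∧ n ≤ 3 * h)) → ¬ nu n m h < min n (c h m) :=
  Pool.Agent.H3.JSgn.joined.2.2

end Pool.Agent.Results.MP_c862d8_co.SmallN
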