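import Mathlib
import Pool.Agent.H3.JSgn

set_option autoImplicit false

namespace Pool.Agent.Results.MP_c862d8_co.TwoElements

open Pool.Agent.H3.SgnSum

theorem result :
    ∀ n h : ℕ, 2 ≤ h → 4 * h ≤ n →
      (nu n 2 h < min n (c h 2) ↔
        (n < (h + 1) ^ 2 ∨ (Odd h ∧ Even n ∧ n < (h + 1) * (h + 2)))) :=
  Pool.Agent.H3.JSgn.joined.2.1

end Pool.Agent.Results.MP_c862d8_co.TwoElements
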